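import Pool.Agent.LE.StmtsR
import Pool.Agent.Helper59_LE.Msp

/-!
# SMP: the probability step of the sharp multiscale induction
-/

set_option autoImplicit false

open MeasureTheory ProbabilityTheory Function

open scoped ENNReal BigOperators

noncomputable section

namespace Pool.Agent.LE.H76

open Pool.Agent.Anderson Pool.Agent.Loc Pool.Agent.Helper54.Bal Pool.Agent.Helper96.EXP
  Pool.Agent.LE.H42 Pool.Agent.LE.H96 Pool.Agent.LE.H59

variable {d : ℕ}

/-- the bad events of separated cells are independent -/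
theorem prob_cells {ν : Measure ℝ} [IsProbabilityMeasure ν] {L : ℕ} {m E p : ℝ} (hL : 1 ≤ L)
    (hp0 : 0 ≤ p) (hp : PP d ν {V | ¬ AllGoodC V 0 L m E} ≤ ENNReal.ofReal p)
    (C : Finset (Site d)) (hC : ∀ k ∈ C, ∀ k' ∈ C, k ≠ k' → 5 ≤ sd k k') :
    PP d ν (⋂ k ∈ C, {V | ¬ AllGoodC V (pt L k) L m E}) ≤ ENNReal.ofReal (p ^ C.card) := by
  classical
  induction C using Finset.induction_on with
  | empty => simp
  | insert k C hk ih =>
    have hC' : ∀ k ∈ C, ∀ k' ∈ C, k ≠ k' → 5 ≤ sd k k' := fun a ha b hb =>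
      hC a (Finset.mem_insert_of_mem ha) b (Finset.mem_insert_of_mem hb)
    rw [Finset.set_biInter_insert, Finset.card_insert_of_notMem hk, pow_succ',
      ENNReal.ofReal_mul hp0]
    have hdis : Disjoint (box (pt L k) (2 * L)) (C.biUnion fun k' => box (pt L k') (2 * L)) := by
      rw [Finset.disjoint_biUnion_right]
      intro k' hk'
      have h5 : 5 ≤ sd k k' := hC k (Finset.mem_insert_self _ _) k'
        (Finset.mem_insert_of_mem hk') (by rintro rfl; exact hk hk')
      rw [Finset.disjoint_left]
      intro x hx hx'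
      rw [mem_box] at hx hx'
      have h1 := sd_triangle (pt L k) x (pt L k')
      rw [sd_comm x] at h1
      have h2 : sd k k' ≤ 4 := sd_pt_le (n := L) hL (by omega)
      omega
    have h1 := Pool.Agent.Mob.H6.PP_inter ν hdis
      (S := {V : Site d → ℝ | ¬ AllGoodC V (pt L k) L m E})
      (T := ⋂ k' ∈ C, {V : Site d → ℝ | ¬ AllGoodC V (pt L k') L m E})
      (measurable_allGood _ L m E).compl
      (Finset.measurableSet_biInter C fun k' _ => (measurable_allGood _ L m E).compl)
      (fun W W' hW => not_congr (allGood_congr' _ L m E hW))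
      (fun W W' hW => by
        simp only [Set.mem_iInter]
        exact forall₂_congr fun k' hk' => not_congr (allGood_congr' _ L m E fun x hx =>
          hW x (Finset.mem_biUnion.2 ⟨k', hk', hx⟩)))
    rw [h1, prob_allGood (pt L k)]
    exact mul_le_mul' hp (ih hC')

/-- SMP -/
theorem smp (hsmd : SmdStmt) : SmpStmt := by
  intro d ν _ ρ hν E m m' p T q L M N n hL hN hp0 hTpos hq1 hq hcond hnM hTq hp
  classical
  have hρ := hν.1
  have hLr : (1 : ℝ) ≤ L := by exact_mod_cast hL
  have hNL : 45 * N ^ 2 * L ≤ M := by omega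
  have hN2 : N ≤ N ^ 2 := by nlinarith
  have h16 : 16 * N * L + 1 ≤ M := by
    have h1 : N * L ≤ N ^ 2 * L := Nat.mul_le_mul_right L hN2
    have h2 : 1 ≤ N * L := Nat.mul_pos hN hL
    nlinarith
  have hLM : L ≤ M := by
    have h1 : N * L ≤ N ^ 2 * L := Nat.mul_le_mul_right L hN2
    have h2 : L ≤ N * L := Nat.le_mul_of_pos_left L hN
    nlinarith
  have hM1 : 1 ≤ M := hL.trans hLM
  have hMr : (1 : ℝ) ≤ M := by exact_mod_cast hM1
  -- the three bad events
  set I : Finset (Site d × ℕ) := box (0 : Site d) (2 * M) ×ˢ Finset.range (M + 1) with hI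
  set K : Finset (Site d) := box (0 : Site d) (2 * M / L) with hK
  set J : Finset (Finset (Site d)) := (K.powersetCard (N + 1)).filter
    fun C => ∀ k ∈ C, ∀ k' ∈ C, k ≠ k' → 5 ≤ sd k k' with hJ
  set N1 : Set (Site d → ℝ) := ⋃ i ∈ I, {V | (RM V (box i.1 i.2) E).det = 0} with hN1
  set N2 : Set (Site d → ℝ) := ⋃ i ∈ I, ⋃ z ∈ box i.1 M ×ˢ box i.1 M,
    {V | T < |gr V (box i.1 i.2) E z.1 z.2|} with hN2
  set N3 : Set (Site d → ℝ) := ⋃ C ∈ J, ⋂ k ∈ C, {V | ¬ AllGoodC V (pt L k) L m E} with hN3
  have hcB : ∀ x : Site d, ((box x M).card : ℝ) ≤ (3 * M) ^ d := by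
    intro x
    rw [card_box]
    push_cast
    apply pow_le_pow_left₀ (by positivity)
    linarith
  have hcI : (I.card : ℝ) ≤ (5 * M) ^ d * (2 * M) := by
    rw [hI, Finset.card_product, Finset.card_range, card_box]
    push_cast
    apply mul_le_mul _ _ (by positivity) (by positivity)
    · apply pow_le_pow_left₀ (by positivity)
      linarith
    · linarith
  have hcK : (K.card : ℝ) ≤ (7 * (M / L : ℝ)) ^ d := by
    rw [hK, card_box]
    push_cast
    apply pow_le_pow_left₀ (by positivity)
    have h1 : ((2 * M / L : ℕ) : ℝ) ≤ ((2 * M : ℕ) : ℝ) / L := Nat.cast_div_le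
    have h2 : (1 : ℝ) ≤ M / L := by
      rw [le_div_iff₀ (by linarith), one_mul]
      exact_mod_cast hLM
    push_cast at h1
    have h3 : (2 * (M : ℝ)) / L = 2 * (M / L) := by ring
    rw [h3] at h1
    linarith
  have hcJ : (J.card : ℝ) ≤ ((7 * (M / L : ℝ)) ^ d) ^ (N + 1) := by
    have h1 : J.card ≤ K.card ^ (N + 1) := by
      calc J.card ≤ (K.powersetCard (N + 1)).card := Finset.card_filter_le _ _
        _ = K.card.choose (N + 1) := Finset.card_powersetCard _ _
        _ ≤ K.card ^ (N + 1) := Nat.choose_le_pow _ _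
    calc (J.card : ℝ) ≤ ((K.card ^ (N + 1) : ℕ) : ℝ) := by exact_mod_cast h1
      _ = (K.card : ℝ) ^ (N + 1) := by push_cast; ring
      _ ≤ ((7 * (M / L : ℝ)) ^ d) ^ (N + 1) := pow_le_pow_left₀ (by positivity) hcK _
  have p1 : PP d ν N1 ≤ ENNReal.ofReal 0 := by
    apply union_le (q := 0)
    · intro i _
      have h1 : Pool.Agent.Mob.H75.Loc {V : Site d → ℝ | (RM V (box i.1 i.2) E).det = 0}
          (box i.1 i.2) := by
        intro V V' h
        rw [Set.mem_ofPred_eq, Set.mem_ofPred_eq, RM_congr h]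
      rw [ENNReal.ofReal_zero]
      exact (Pool.Agent.Mob.H75.PP_le_PL h1).trans (PL_det hν _ _ le_rfl E).le
    · rw [mul_zero]
  have p2 : PP d ν N2 ≤ ENNReal.ofReal (12 * ρ * (5 * M) ^ (3 * d + 1) / T) := by
    apply union_le (q := (5 * M) ^ (2 * d) * (6 * ρ / T))
    · intro i _
      apply union_le (q := 6 * ρ / T)
      · intro z _
        have h1 : Pool.Agent.Mob.H75.Loc
            {V : Site d → ℝ | T < |gr V (box i.1 i.2) E z.1 z.2|} (box i.1 i.2) := by
          intro V V' h
          rw [Set.mem_ofPred_eq, Set.mem_ofPred_eq, gr_congr h]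
        exact (Pool.Agent.Mob.H75.PP_le_PL h1).trans (PL_weak hν _ E z.1 z.2 hTpos)
      · apply mul_le_mul_of_nonneg_right _ (by positivity)
        rw [Finset.card_product]
        push_cast
        calc ((box i.1 M).card : ℝ) * ((box i.1 M).card : ℝ)
            ≤ (3 * M) ^ d * (3 * M) ^ d :=
              mul_le_mul (hcB _) (hcB _) (by positivity) (by positivity)
          _ = (3 * M) ^ (2 * d) := by ring
          _ ≤ (5 * M) ^ (2 * d) := by
              apply pow_le_pow_left₀ (by positivity)
              linarith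
    · calc (I.card : ℝ) * ((5 * M) ^ (2 * d) * (6 * ρ / T))
          ≤ ((5 * M) ^ d * (2 * M)) * ((5 * M) ^ (2 * d) * (6 * ρ / T)) :=
            mul_le_mul_of_nonneg_right hcI (by positivity)
        _ = 12 * ρ * ((5 * M) ^ (3 * d) * M) / T := by
            ring
        _ ≤ 12 * ρ * (5 * M) ^ (3 * d + 1) / T := by
            apply div_le_div_of_nonneg_right _ hTpos.le
            apply mul_le_mul_of_nonneg_left _ (by positivity)
            rw [pow_succ]
            apply mul_le_mul_of_nonneg_left _ (by positivity)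
            linarith
  have p3 : PP d ν N3 ≤ ENNReal.ofReal (((7 * (M / L : ℝ)) ^ d * p) ^ (N + 1)) := by
    apply union_le (q := p ^ (N + 1))
    · intro C hC
      rw [hJ, Finset.mem_filter, Finset.mem_powersetCard] at hC
      rw [← hC.1.2]
      exact prob_cells hL hp0 hp C hC.2
    · rw [mul_pow]
      exact mul_le_mul_of_nonneg_right hcJ (by positivity)
  -- the inclusion
  have hincl : {V : Site d → ℝ | ¬ AllGoodC V 0 M m' E} ⊆ N3 ∪ (N2 ∪ N1) := by
    intro V hV
    by_contra hcon
    simp only [Set.mem_union, not_or] at hcon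
    obtain ⟨c3, c2, c1⟩ := hcon
    apply hV
    have hdet : ∀ s ∈ box (0 : Site d) (2 * M), ∀ r, r ≤ M →
        (RM V (box s r) E).det ≠ 0 := by
      intro s hs r hr h0
      apply c1
      rw [hN1]
      simp only [Set.mem_iUnion, exists_prop]
      refine ⟨(s, r), ?_, h0⟩
      rw [hI, Finset.mem_product, Finset.mem_range]
      exact ⟨hs, by simp only; omega⟩
    have hgr : ∀ s ∈ box (0 : Site d) (2 * M), ∀ r, r ≤ M → ∀ x y,
        |gr V (box s r) E x y| ≤ T := by
      intro s hs r hr x y
      by_cases hxy : x ∈ box s r ∧ y ∈ box s r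
      · by_contra h0
        rw [not_le] at h0
        apply c2
        rw [hN2]
        simp only [Set.mem_iUnion, exists_prop]
        refine ⟨(s, r), ?_, (x, y), ?_, h0⟩
        · rw [hI, Finset.mem_product, Finset.mem_range]
          exact ⟨hs, by simp only; omega⟩
        · rw [Finset.mem_product]
          exact ⟨box_mono s hr hxy.1, box_mono s hr hxy.2⟩
      · unfold gr
        rw [dif_neg hxy, abs_zero]
        exact hTpos.le
    intro s hs
    have hs2 : s ∈ box (0 : Site d) (2 * M) := by
      rw [mem_box] at *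
      omega
    have hin : ∀ v ∈ box s M, v ∈ box (0 : Site d) (2 * M) := by
      intro v hv
      rw [mem_box] at *
      have := sd_triangle 0 s v
      omega
    refine ⟨hdet s hs2 _ le_rfl, fun u hu => ?_⟩
    refine (hsmd d V E m T q L M N n s u hL hN hTpos.le hq1 hq hcond
      ⟨hdet s hs2 _ le_rfl, hgr s hs2 _ le_rfl⟩
      (fun v hv r hr => ⟨hdet v (hin v hv) r (by omega), hgr v (hin v hv) r (by omega)⟩)
      ?_ hnM hu).trans hTq
    intro F hF1 hF2
    by_contra hcard
    rw [not_le] at hcard
    obtain ⟨F', hF', hF'c⟩ := Finset.exists_subset_card_eq (s := F) (n := N + 1) hcard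
    have hcov : ∀ v ∈ F', ∃ k ∈ K, sd (pt L k) v ≤ L := by
      intro v hv
      have h1 : v ∈ box (0 : Site d) ((2 * M / L + 1) * L) := by
        have h2 := hin v (hF1 v (hF' hv)).1
        rw [mem_box] at *
        have h3 : 2 * M < (2 * M / L + 1) * L := by
          have := Nat.lt_div_mul_add (a := 2 * M) (b := L) hL
          rw [add_mul, one_mul]
          exact this
        omega
      obtain ⟨k, hk, hkv⟩ := cover (Nat.le_add_left 1 _) h1
      exact ⟨k, by simpa [hK] using hk, hkv⟩
    choose! c hc1 hc2 using hcov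
    have hfar : ∀ v ∈ F', ∀ v' ∈ F', v ≠ v' → 5 ≤ sd (c v) (c v') := by
      intro v hv v' hv' hne
      by_contra h5
      have h4 : sd (c v) (c v') ≤ 4 := by omega
      have h5 := sd_pt_le' (n := L) h4
      have h6 := sd_triangle v (pt L (c v)) v'
      have h7 := sd_triangle (pt L (c v)) (pt L (c v')) v'
      rw [sd_comm v (pt L (c v))] at h6
      have h8 := hF2 v (hF' hv) v' (hF' hv') hne
      have h9 := hc2 v hv
      have h10 := hc2 v' hv'
      omega
    have hinj : Set.InjOn c F' := by
      intro v hv v' hv' hcv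
      by_contra hne
      have h1 := hfar v hv v' hv' hne
      rw [hcv, sd_self] at h1
      omega
    apply c3
    rw [hN3]
    simp only [Set.mem_iUnion, exists_prop]
    refine ⟨F'.image c, ?_, ?_⟩
    · rw [hJ, Finset.mem_filter, Finset.mem_powersetCard]
      refine ⟨⟨?_, ?_⟩, ?_⟩
      · intro k hk
        obtain ⟨v, hv, rfl⟩ := Finset.mem_image.1 hk
        exact hc1 v hv
      · rw [Finset.card_image_of_injOn hinj, hF'c]
      · intro k hk k' hk' hne
        obtain ⟨v, hv, rfl⟩ := Finset.mem_image.1 hk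
        obtain ⟨v', hv', rfl⟩ := Finset.mem_image.1 hk'
        exact hfar v hv v' hv' (by rintro rfl; exact hne rfl)
    · simp only [Set.mem_iInter]
      intro k hk
      obtain ⟨v, hv, rfl⟩ := Finset.mem_image.1 hk
      exact fun h => (hF1 v (hF' hv)).2 (h v (mem_box.2 (hc2 v hv)))
  refine (measure_mono hincl).trans ?_
  refine (measure_union_le _ _).trans ?_
  rw [ENNReal.ofReal_add (by positivity) (by positivity)]
  refine add_le_add p3 ((measure_union_le _ _).trans ?_)
  have h0 : PP d ν N1 = 0 := by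
    rw [ENNReal.ofReal_zero] at p1
    exact le_antisymm p1 zero_le
  rw [h0, add_zero]
  exact p2

end Pool.Agent.LE.H76
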